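import Pool.Agent.Lib_helper60.AVM.Defs

/-!
# AVM, block QS: the quartic characters
-/

set_option autoImplicit false

namespace Pool.Agent.AVM

open Finset Pool.Agent.PQ Pool.Agent.GL

private theorem qs_spec (p : ℕ) (hp : p.Prime) (h4 : p % 4 = 1) :
    qc p ≠ 1 ∧ qc p ^ 2 ≠ 1 ∧ qc p ^ 3 ≠ 1 ∧ ∀ q : ℕ, ¬ p ∣ q →
      (Pow2 q p ↔ (qc p ^ 2) (q : ZMod p) = 1) ∧ (¬ Pow2 q p ↔ (qc p ^ 2) (q : ZMod p) = -1) ∧
      (Pow4 q p ↔ qc p (q : ZMod p) = 1) ∧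
      (Pow2 q p ∧ ¬ Pow4 q p ↔ qc p (q : ZMod p) = -1) ∧
      (¬ Pow2 q p → qc p (q : ZMod p) + (qc p ^ 3) (q : ZMod p) = 0) := by
  classical
  have : Fact p.Prime := ⟨hp⟩
  obtain ⟨χ, h1, h2, h3, h⟩ := quartic_char p h4
  have hex : ∃ χ : DirichletCharacter ℂ p, p.Prime ∧ p % 4 = 1 ∧ χ ≠ 1 ∧ χ ^ 2 ≠ 1 ∧ χ ^ 3 ≠ 1 ∧
      ∀ q : ℕ, ¬ p ∣ q →
      (Pow2 q p ↔ (χ ^ 2) (q : ZMod p) = 1) ∧ (¬ Pow2 q p ↔ (χ ^ 2) (q : ZMod p) = -1) ∧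
      (Pow4 q p ↔ χ (q : ZMod p) = 1) ∧
      (Pow2 q p ∧ ¬ Pow4 q p ↔ χ (q : ZMod p) = -1) ∧
      (¬ Pow2 q p → χ (q : ZMod p) + (χ ^ 3) (q : ZMod p) = 0) := ⟨χ, hp, h4, h1, h2, h3, h⟩
  have heq : qc p = hex.choose := by
    unfold qc
    rw [dif_pos hex]
  rw [heq]
  exact hex.choose_spec.2.2

private theorem qs_unit (p : ℕ) (hp : p.Prime) (a : (ZMod p)ˣ) :
    ∃ q : ℕ, ¬ p ∣ q ∧ (q : ZMod p) = a := by
  have : Fact p.Prime := ⟨hp⟩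
  refine ⟨(a : ZMod p).val, ?_, ZMod.natCast_zmod_val _⟩
  intro h
  have h1 : (((a : ZMod p).val : ℕ) : ZMod p) = 0 := (ZMod.natCast_eq_zero_iff _ _).2 h
  rw [ZMod.natCast_zmod_val] at h1
  exact a.ne_zero h1

theorem qc_ne (p : ℕ) (hp : p.Prime) (h4 : p % 4 = 1) : qc p ≠ 1 ∧ qc p ^ 2 ≠ 1 ∧ qc p ^ 3 ≠ 1 ∧ qc p ^ 4 = 1 := by
  obtain ⟨h1, h2, h3, h⟩ := qs_spec p hp h4
  refine ⟨h1, h2, h3, ?_⟩
  refine MulChar.ext fun a => ?_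
  obtain ⟨q, hq, hqa⟩ := qs_unit p hp a
  have hq2 := h q hq
  rw [← hqa]
  have e4 : (qc p ^ 4) (q : ZMod p) = (qc p ^ 2) (q : ZMod p) * (qc p ^ 2) (q : ZMod p) := by
    rw [← MulChar.mul_apply]
    congr 1
    rw [← pow_add]
  have e1 : (1 : DirichletCharacter ℂ p) (q : ZMod p) = 1 := by
    rw [hqa]
    exact MulChar.one_apply_coe a
  rw [e4, e1]
  by_cases hP : Pow2 q p
  · rw [hq2.1.1 hP]; norm_num
  · rw [hq2.2.1.1 hP]; norm_num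

private theorem qs_jac (p : ℕ) (hp : p.Prime) (a : ℕ) :
    (p ∣ a → jacobiSym (a : ℤ) p = 0) ∧
    (¬ p ∣ a → Pow2 a p → jacobiSym (a : ℤ) p = 1) ∧
    (¬ p ∣ a → ¬ Pow2 a p → jacobiSym (a : ℤ) p = -1) := by
  have : Fact p.Prime := ⟨hp⟩
  rw [← jacobiSym.legendreSym.to_jacobiSym]
  have hz : (((a : ℤ) : ZMod p) = 0) ↔ p ∣ a := by
    rw [Int.cast_natCast]
    exact ZMod.natCast_eq_zero_iff _ _
  have hsq : IsSquare ((a : ℤ) : ZMod p) ↔ Pow2 a p := by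
    unfold Pow2
    rw [Int.cast_natCast]
    constructor
    · rintro ⟨x, hx⟩
      exact ⟨x, by rw [hx]; ring⟩
    · rintro ⟨x, hx⟩
      exact ⟨x, by rw [← hx]; ring⟩
  refine ⟨fun h => ?_, fun h h2 => ?_, fun h h2 => ?_⟩
  · exact (legendreSym.eq_zero_iff p _).2 (hz.2 h)
  · exact (legendreSym.eq_one_iff p (fun h0 => h (hz.1 h0))).2 (hsq.2 h2)
  · exact (legendreSym.eq_neg_one_iff p).2 (fun h3 => h2 (hsq.1 h3))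

theorem qc_two (p : ℕ) (hp : p.Prime) (h4 : p % 4 = 1) (a : ℕ) :
    ((jacobiSym (a : ℤ) p : ℤ) : ℂ) = (qc p ^ 2) (a : ZMod p) := by
  have : Fact p.Prime := ⟨hp⟩
  obtain ⟨h1, h2, h3, h⟩ := qs_spec p hp h4
  obtain ⟨j0, j1, j2⟩ := qs_jac p hp a
  by_cases hpa : p ∣ a
  · rw [j0 hpa, (ZMod.natCast_eq_zero_iff a p).2 hpa]
    rw [MulChar.map_zero]
    norm_num
  · by_cases hP : Pow2 a p
    · rw [j1 hpa hP, (h a hpa).1.1 hP]; norm_num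
    · rw [j2 hpa hP, (h a hpa).2.1.1 hP]; norm_num

theorem qc_four (p : ℕ) (hp : p.Prime) (h4 : p % 4 = 1) (a : ℕ) (ha : jacobiSym (a : ℤ) p = 1) :
    (Pow4 a p → qc p (a : ZMod p) = 1) ∧ (¬ Pow4 a p → qc p (a : ZMod p) = -1) := by
  obtain ⟨h1, h2, h3, h⟩ := qs_spec p hp h4
  obtain ⟨j0, j1, j2⟩ := qs_jac p hp a
  have hpa : ¬ p ∣ a := by
    intro hd
    rw [j0 hd] at ha
    norm_num at ha
  have hP : Pow2 a p := by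
    by_contra hP
    rw [j2 hpa hP] at ha
    norm_num at ha
  obtain ⟨-, -, k3, k4, -⟩ := h a hpa
  exact ⟨fun hp4 => k3.1 hp4, fun hp4 => k4.1 ⟨hP, hp4⟩⟩

end Pool.Agent.AVM
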